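import Mathlib
import Pool.Agent.Subspace.AvFinal

/-!
# Almost all powers `p ^ n` have at least `n ^ (1 - ε)` digit changes in base `q`
-/

namespace Pool.Agent.Results.MP_b08cb4_nt.AlmostAllChanges

/-- The number of digit changes in the base `q` expansion of `m`: the number of positions `i` such
that `i` and `i + 1` are both positions of digits of `m` and the digits `⌊m / q ^ i⌋ mod q` and
`⌊m / q ^ (i + 1)⌋ mod q` of `m` in these positions are different. -/
def digitChanges (q m : ℕ) : ℕ :=
  ((Finset.range (Nat.digits q m).length).filter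
    (fun i => i + 1 < (Nat.digits q m).length ∧ m / q ^ i % q ≠ m / q ^ (i + 1) % q)).card

/-- For coprime `p, q ≥ 2` (for example distinct primes) and every `ε > 0` there is `C` such that
for every `A ≥ 1` and every `N` the sum over `n < N` of
`1 / (1 + the number of digit changes of A p ^ n in base q)` is at most `C N ^ ε`. -/
theorem result {p q : ℕ} (hp : 2 ≤ p) (hq : 2 ≤ q) (hpq : Nat.Coprime p q) {ε : ℝ} (hε : 0 < ε) :
    ∃ C : ℝ, 0 < C ∧ ∀ A : ℕ, 1 ≤ A → ∀ N : ℕ,
      ∑ n ∈ Finset.range N, 1 / (1 + (digitChanges q (A * p ^ n) : ℝ)) ≤ C * (N : ℝ) ^ ε :=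
  SST.changes_eps hp hq hpq hε

end Pool.Agent.Results.MP_b08cb4_nt.AlmostAllChanges
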